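import Pool.Agent.Results.MP_8c175f_gt.LargeWeakLindelofNumber

/-!
# A `T₁` space that is not Lindelöf and whose co-diagonal is discretely Lindelöf: the space
-/

set_option autoImplicit false

open Set Topology Cardinal Filter

namespace Pool.Agent.Q252.CoDiag

open Pool.Agent.H960R3.DL

variable {L : ℕ → Type} [∀ n, LinearOrder (L n)]

/-- The point set: vectors of some rank below `δ`. -/
def Qt (δ : Ordinal.{0}) (G : Ordinal.{0} → ∀ n, L n) : Type :=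
  {x : Vec L // ∃ ξ < δ, Lo G ξ x}

/-- The basic sets. -/
def Nb (δ : Ordinal.{0}) (G : Ordinal.{0} → ∀ n, L n) (s : Finset (Σ n, L n))
    (t : Finset Ordinal.{0}) (F : Finset (Qt δ G)) : Set (Qt δ G) :=
  {q | InU s q.1 ∧ InW δ G t q.1 ∧ q ∉ F}

open Classical in
instance topQ (δ : Ordinal.{0}) (G : Ordinal.{0} → ∀ n, L n) : TopologicalSpace (Qt δ G) where
  IsOpen O := ∀ p ∈ O, ∃ (s : Finset (Σ n, L n)) (t : Finset Ordinal.{0}) (F : Finset (Qt δ G)),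
    p ∈ Nb δ G s t F ∧ Nb δ G s t F ⊆ O
  isOpen_univ := fun p _ => ⟨∅, ∅, ∅, ⟨by simp [InU], by simp [InW], by simp⟩, subset_univ _⟩
  isOpen_inter := by
    intro O O' h h' p hp
    obtain ⟨s, t, F, ⟨h1, h2, h3⟩, h4⟩ := h p hp.1
    obtain ⟨s', t', F', ⟨h1', h2', h3'⟩, h4'⟩ := h' p hp.2
    refine ⟨s ∪ s', t ∪ t', F ∪ F', ⟨?_, ?_, ?_⟩, ?_⟩
    · intro a ha
      rcases Finset.mem_union.1 ha with ha | ha
      · exact h1 a ha
      · exact h1' a ha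
    · intro a ha
      rcases Finset.mem_union.1 ha with ha | ha
      · exact h2 a ha
      · exact h2' a ha
    · simp [h3, h3']
    · intro q hq
      obtain ⟨hq1, hq2, hq3⟩ := hq
      rw [Finset.mem_union, not_or] at hq3
      exact ⟨h4 ⟨fun a ha => hq1 a (Finset.mem_union_left _ ha),
        fun a ha => hq2 a (Finset.mem_union_left _ ha), hq3.1⟩,
        h4' ⟨fun a ha => hq1 a (Finset.mem_union_right _ ha),
        fun a ha => hq2 a (Finset.mem_union_right _ ha), hq3.2⟩⟩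
  isOpen_sUnion := by
    intro S hS p hp
    obtain ⟨O, hO, hpO⟩ := hp
    obtain ⟨s, t, F, h1, h4⟩ := hS O hO p hpO
    exact ⟨s, t, F, h1, fun q a => ⟨O, hO, h4 a⟩⟩

variable {δ : Ordinal.{0}} {G : Ordinal.{0} → ∀ n, L n}

theorem isOpen_iffQ {O : Set (Qt δ G)} : IsOpen O ↔
    ∀ p ∈ O, ∃ (s : Finset (Σ n, L n)) (t : Finset Ordinal.{0}) (F : Finset (Qt δ G)),
    p ∈ Nb δ G s t F ∧ Nb δ G s t F ⊆ O := Iff.rfl

theorem isOpen_Nb (s : Finset (Σ n, L n)) (t : Finset Ordinal.{0}) (F : Finset (Qt δ G)) :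
    IsOpen (Nb δ G s t F) := fun _ hp => ⟨s, t, F, hp, Subset.rfl⟩

instance t1Q : T1Space (Qt δ G) := by
  refine ⟨fun p => ⟨?_⟩⟩
  rw [isOpen_iffQ]
  intro q hq
  refine ⟨∅, ∅, {p}, ⟨by simp [InU], by simp [InW], by simpa using hq⟩, ?_⟩
  intro r hr
  simpa using hr.2.2

theorem isOpen_UQ (n : ℕ) (a : L n) : IsOpen {p : Qt δ G | p.1 n < (a : WithTop (L n))} := by
  rw [isOpen_iffQ]
  intro p hp
  refine ⟨{⟨n, a⟩}, ∅, ∅, ⟨?_, by simp [InW], by simp⟩, ?_⟩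
  · intro c hc
    rw [Finset.mem_singleton] at hc
    subst hc
    exact hp
  · intro q hq
    exact hq.1 ⟨n, a⟩ (by simp)

/-- The points of rank at most `ξ`. -/
def LoS (δ : Ordinal.{0}) (G : Ordinal.{0} → ∀ n, L n) (ξ : Ordinal.{0}) : Set (Qt δ G) :=
  {p | Lo G ξ p.1}

theorem isClosed_LoS {ξ : Ordinal.{0}} (hξ : ξ < δ) : IsClosed (LoS δ G ξ) := by
  refine ⟨?_⟩
  rw [isOpen_iffQ]
  intro p hp
  refine ⟨∅, {ξ}, ∅, ⟨by simp [InU], ?_, by simp⟩, ?_⟩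
  · intro c hc
    rw [Finset.mem_singleton] at hc
    subst hc
    exact ⟨hξ, hp⟩
  · intro q hq
    exact (hq.2.1 ξ (by simp)).2

/-- The point which is `G ξ` on `A` and infinite elsewhere. -/
noncomputable def pA (δ : Ordinal.{0}) (G : Ordinal.{0} → ∀ n, L n) (ξ : Ordinal.{0}) (hξ : ξ < δ)
    (A : Set ℕ) (hA : A.Infinite) : Qt δ G :=
  ⟨xA G ξ A, ξ, hξ, lo_xA G ξ hA⟩

theorem avoid (ξ : Ordinal.{0}) (v : Vec L) {A : Set ℕ} (hA : A.Infinite) :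
    ∃ B ⊆ A, B.Infinite ∧ xA G ξ B ≠ v := by
  classical
  by_cases h : xA G ξ A = v
  · obtain ⟨m, hm⟩ := hA.nonempty
    refine ⟨A \ {m}, sdiff_subset, hA.sdiff (finite_singleton m), fun h' => ?_⟩
    have h1 : xA G ξ (A \ {m}) m = ⊤ := by simp [xA]
    have h2 : xA G ξ A m = (G ξ m : WithTop (L m)) := by simp [xA, hm]
    rw [h', ← h, h2] at h1
    exact WithTop.coe_ne_top h1
  · exact ⟨A, Subset.rfl, hA, h⟩

/-- The support of a finite set of conditions. -/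
def dom (s : Finset (Σ n, L n)) : Set ℕ := Sigma.fst '' (s : Set (Σ n, L n))

open Classical in
def domF (s : Finset (Σ n, L n)) : Finset ℕ := s.image Sigma.fst

theorem domF_sub {ξ : Ordinal.{0}} {A : Set ℕ} {s : Finset (Σ n, L n)}
    (h : InU s (xA G ξ A)) : ∀ n ∈ domF s, n ∈ A := by
  classical
  intro n hn
  obtain ⟨c, hc1, rfl⟩ := Finset.mem_image.1 hn
  by_contra hcA
  have h1 := h c hc1
  simp [xA, hcA] at h1

/-- If `y ≤ G ξ` on the support of `s`, and `xA` satisfies `s`, so does `y`. -/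
theorem inU_of_le {ξ : Ordinal.{0}} {A : Set ℕ} {s : Finset (Σ n, L n)}
    (h : InU s (xA G ξ A)) {y : Vec L}
    (hy : ∀ n ∈ domF s, y n ≤ (G ξ n : WithTop (L n))) : InU s y := by
  classical
  intro c hc1
  have h1 : c.1 ∈ domF s := Finset.mem_image_of_mem _ hc1
  have h3 := h c hc1
  have h4 : c.1 ∈ A := domF_sub h _ h1
  simp only [xA, h4, if_true] at h3
  exact (hy _ h1).trans_lt h3

theorem rank_lt (hG : ∀ ξ < δ, ∀ η < ξ, ∀ᶠ n in atTop, G η n < G ξ n) {ξ ζ : Ordinal.{0}}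
    {A : Set ℕ} (hA : A.Infinite) (hζ : ζ < δ) (h : ¬ Lo G ζ (xA G ξ A)) : ζ < ξ := by
  by_contra h3
  rw [not_lt] at h3
  exact h (Lo.mono hG h3 hζ (lo_xA G ξ hA))

theorem cov_of_lindelof {X : Type} [TopologicalSpace X] {S : Set X} (hS : IsLindelof S)
    {O : Set (Set X)} (hO : ∀ U ∈ O, IsOpen U) (hc : S ⊆ ⋃₀ O) : Cov O S := by
  obtain ⟨r, hr, hr'⟩ := hS.elim_countable_subcover (fun U : O => U.1) (fun U => hO _ U.2)
    (by rwa [sUnion_eq_iUnion] at hc)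
  refine ⟨Subtype.val '' r, ?_, hr.image _, ?_⟩
  · rintro _ ⟨U, -, rfl⟩
    exact U.2
  · intro x hx
    obtain ⟨U, hU, hxU⟩ := mem_iUnion₂.1 (hr' hx)
    exact ⟨U.1, ⟨U, hU, rfl⟩, hxU⟩

theorem lindelof_of_cov {X : Type} [TopologicalSpace X] {S : Set X}
    (h : ∀ O : Set (Set X), (∀ U ∈ O, IsOpen U) → S ⊆ ⋃₀ O → Cov O S) : IsLindelof S := by
  refine isLindelof_of_countable_subcover ?_
  intro ι U hUo hUc
  obtain ⟨V, hV1, hV2, hV3⟩ := h (range U)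
    (by rintro _ ⟨i, rfl⟩; exact hUo i) (by rwa [sUnion_range])
  have hV4 : ∀ v : V, ∃ i, U i = v.1 := fun v => hV1 v.2
  choose c hc using hV4
  have := hV2.to_subtype
  refine ⟨range c, countable_range c, fun p hp => ?_⟩
  obtain ⟨v, hv, hpv⟩ := hV3 hp
  refine mem_iUnion₂.2 ⟨c ⟨v, hv⟩, ⟨_, rfl⟩, ?_⟩
  rw [hc ⟨v, hv⟩]
  exact hpv

/-- The points of rank at most `ξ` other than `y` form a Lindelöf set. -/
theorem lind1 (hG : ∀ ξ < δ, ∀ η < ξ, ∀ᶠ n in atTop, G η n < G ξ n) (y : Qt δ G)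
    (ξ : Ordinal.{0}) (hξ : ξ < δ) : IsLindelof (LoS δ G ξ \ {y}) := by
  classical
  induction ξ using WellFoundedLT.induction with
  | ind ξ ih =>
  refine lindelof_of_cov fun 𝒪 hO hc => ?_
  have h0 : ∀ A : Set ℕ, A.Infinite → xA G ξ A ≠ y.1 → ∃ (O : Set (Qt δ G))
      (s : Finset (Σ n, L n)) (t : Finset Ordinal.{0}) (F : Finset (Qt δ G)), O ∈ 𝒪 ∧
        InU s (xA G ξ A) ∧ InW δ G t (xA G ξ A) ∧ Nb δ G s t F ⊆ O := by
    intro A hA hne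
    obtain ⟨O, hO1, hpO⟩ := hc (show pA δ G ξ hξ A hA ∈ LoS δ G ξ \ {y} from
      ⟨lo_xA G ξ hA, fun h => hne (congrArg Subtype.val h)⟩)
    obtain ⟨s, t, F, ⟨h1, h2, -⟩, h4⟩ := isOpen_iffQ.1 (hO O hO1) _ hpO
    exact ⟨O, s, t, F, hO1, h1, h2, h4⟩
  choose! Oa sa ta Fa hOa hsa hta hqa using h0
  let D : Set (Finset ℕ) := {d | ∃ A : Set ℕ, A.Infinite ∧ xA G ξ A ≠ y.1 ∧ domF (sa A) = d}
  have hD : ∀ d ∈ D, ∃ A : Set ℕ, A.Infinite ∧ xA G ξ A ≠ y.1 ∧ domF (sa A) = d := fun d hd => hd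
  choose! Ad hAd hAd' hAd'' using hD
  have hsub : LoS δ G ξ \ {y} ⊆ ⋃ d ∈ D, (Oa (Ad d) ∪
      ((⋃ ζ ∈ (ta (Ad d) : Set Ordinal.{0}), (LoS δ G ζ \ {y})) ∪
        ((Fa (Ad d) : Set (Qt δ G)) ∩ (LoS δ G ξ \ {y})))) := by
    intro p hp
    obtain ⟨A, hA1, hA2, hA3⟩ := avoid (G := G) ξ y.1
      (Nat.frequently_atTop_iff_infinite.1 hp.1)
    have hd : domF (sa A) ∈ D := ⟨A, hA2, hA3, rfl⟩
    refine mem_iUnion₂.2 ⟨domF (sa A), hd, ?_⟩
    have hB := hAd _ hd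
    have hB' := hAd' _ hd
    have hB'' := hAd'' _ hd
    have hU : InU (sa (Ad (domF (sa A)))) p.1 := by
      refine inU_of_le (hsa _ hB hB') fun n hn => ?_
      rw [hB''] at hn
      exact hA1 (domF_sub (hsa A hA2 hA3) n hn)
    by_cases hW : InW δ G (ta (Ad (domF (sa A)))) p.1
    · by_cases hF : p ∈ Fa (Ad (domF (sa A)))
      · exact Or.inr (Or.inr ⟨hF, hp⟩)
      · exact Or.inl (hqa _ hB hB' ⟨hU, hW, hF⟩)
    · refine Or.inr (Or.inl ?_)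
      rw [InW] at hW
      push Not at hW
      obtain ⟨ζ, hζ, h⟩ := hW
      exact mem_iUnion₂.2 ⟨ζ, hζ, h (hta _ hB hB' ζ hζ).1, hp.2⟩
  refine Cov.mono ?_ hsub
  refine Cov.biUnion (to_countable D) fun d hd => ?_
  have hB := hAd _ hd
  have hB' := hAd' _ hd
  refine Cov.union (Cov.of_mem (hOa _ hB hB')) (Cov.union ?_ ?_)
  · refine Cov.biUnion (Finset.countable_toSet _) fun ζ hζ => ?_
    obtain ⟨h1, h2⟩ := hta _ hB hB' ζ hζ
    have hlt : ζ < ξ := rank_lt hG hB h1 h2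
    exact cov_of_lindelof (ih ζ hlt h1) hO
      (fun p hp => hc ⟨Lo.mono hG hlt.le hξ hp.1, hp.2⟩)
  · have hfin : ((Fa (Ad d) : Set (Qt δ G)) ∩ (LoS δ G ξ \ {y})).Finite :=
      (Finset.finite_toSet _).inter_of_left _
    exact cov_of_lindelof hfin.isLindelof hO (inter_subset_right.trans hc)

end Pool.Agent.Q252.CoDiag
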