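import Pool.Agent.Q252.CoDiag1

/-!
# A `T₁` space that is not Lindelöf and whose co-diagonal is discretely Lindelöf: rectangles
-/

set_option autoImplicit false

open Set Topology Cardinal Filter

namespace Pool.Agent.Q252.CoDiag

open Pool.Agent.H960R3.DL

variable {L : ℕ → Type} [∀ n, LinearOrder (L n)]
variable {δ : Ordinal.{0}} {G : Ordinal.{0} → ∀ n, L n}

/-- The rectangle of rank `(ξ, η)` without the diagonal. -/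
def Rc (δ : Ordinal.{0}) (G : Ordinal.{0} → ∀ n, L n) (ξ η : Ordinal.{0}) :
    Set (Qt δ G × Qt δ G) :=
  {p | p.1 ∈ LoS δ G ξ ∧ p.2 ∈ LoS δ G η ∧ p.1 ≠ p.2}

theorem lind_left (hG : ∀ ξ < δ, ∀ η < ξ, ∀ᶠ n in atTop, G η n < G ξ n) (y : Qt δ G)
    (ξ : Ordinal.{0}) (hξ : ξ < δ) :
    IsLindelof {p : Qt δ G × Qt δ G | p.1 = y ∧ p.2 ∈ LoS δ G ξ ∧ p.1 ≠ p.2} := by
  have h := (lind1 hG y ξ hξ).image (f := fun x => (y, x)) (by fun_prop)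
  convert h using 1
  ext ⟨a, b⟩
  constructor
  · rintro ⟨h1, h2, h3⟩
    simp only at h1 h2 h3
    subst h1
    exact ⟨b, ⟨h2, fun h => h3 h.symm⟩, rfl⟩
  · rintro ⟨c, ⟨h2, h3⟩, h4⟩
    obtain ⟨rfl, rfl⟩ := Prod.mk.inj h4
    exact ⟨rfl, h2, fun h => h3 h.symm⟩

theorem lind_right (hG : ∀ ξ < δ, ∀ η < ξ, ∀ᶠ n in atTop, G η n < G ξ n) (y : Qt δ G)
    (ξ : Ordinal.{0}) (hξ : ξ < δ) :
    IsLindelof {p : Qt δ G × Qt δ G | p.2 = y ∧ p.1 ∈ LoS δ G ξ ∧ p.1 ≠ p.2} := by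
  have h := (lind1 hG y ξ hξ).image (f := fun x => (x, y)) (by fun_prop)
  convert h using 1
  ext ⟨a, b⟩
  constructor
  · rintro ⟨h1, h2, h3⟩
    simp only at h1 h2 h3
    subst h1
    exact ⟨a, ⟨h2, fun h => h3 h⟩, rfl⟩
  · rintro ⟨c, ⟨h2, h3⟩, h4⟩
    obtain ⟨rfl, rfl⟩ := Prod.mk.inj h4
    exact ⟨rfl, h2, fun h => h3 h⟩

theorem lind2 (hG : ∀ ξ < δ, ∀ η < ξ, ∀ᶠ n in atTop, G η n < G ξ n)
    (ξ : Ordinal.{0}) (hξ : ξ < δ) (η : Ordinal.{0}) (hη : η < δ) :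
    IsLindelof (Rc δ G ξ η) := by
  classical
  induction ξ using WellFoundedLT.induction generalizing η with
  | ind ξ ihξ =>
  induction η using WellFoundedLT.induction with
  | ind η ihη =>
  refine lindelof_of_cov fun 𝒪 hO hc => ?_
  have h0 : ∀ A B : Set ℕ, A.Infinite → B.Infinite → xA G ξ A ≠ xA G η B →
      ∃ (O : Set (Qt δ G × Qt δ G))
      (s : Finset (Σ n, L n)) (t : Finset Ordinal.{0}) (F : Finset (Qt δ G))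
      (s' : Finset (Σ n, L n)) (t' : Finset Ordinal.{0}) (F' : Finset (Qt δ G)), O ∈ 𝒪 ∧
        (InU s (xA G ξ A) ∧ InW δ G t (xA G ξ A)) ∧ (InU s' (xA G η B) ∧ InW δ G t' (xA G η B)) ∧
        Nb δ G s t F ×ˢ Nb δ G s' t' F' ⊆ O := by
    intro A B hA hB hne
    obtain ⟨O, hO1, hpO⟩ := hc (show (pA δ G ξ hξ A hA, pA δ G η hη B hB) ∈ Rc δ G ξ η from
      ⟨lo_xA G ξ hA, lo_xA G η hB, fun h => hne (congrArg Subtype.val h)⟩)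
    obtain ⟨U, V, hU, hV, hpU, hpV, hUV⟩ := isOpen_prod_iff.1 (hO O hO1) _ _ hpO
    obtain ⟨s, t, F, ⟨h1, h2, -⟩, h4⟩ := isOpen_iffQ.1 hU _ hpU
    obtain ⟨s', t', F', ⟨h1', h2', -⟩, h4'⟩ := isOpen_iffQ.1 hV _ hpV
    exact ⟨O, s, t, F, s', t', F', hO1, ⟨h1, h2⟩, ⟨h1', h2'⟩,
      (prod_mono h4 h4').trans hUV⟩
  choose! Oa sa ta Fa sb tb Fb hOa hsa hsb hqa using h0
  let D : Set (Finset ℕ × Finset ℕ) := {d | ∃ A B : Set ℕ, (A.Infinite ∧ B.Infinite ∧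
    xA G ξ A ≠ xA G η B) ∧ domF (sa A B) = d.1 ∧ domF (sb A B) = d.2}
  have hD : ∀ d ∈ D, ∃ A B : Set ℕ, (A.Infinite ∧ B.Infinite ∧
    xA G ξ A ≠ xA G η B) ∧ domF (sa A B) = d.1 ∧ domF (sb A B) = d.2 := fun d hd => hd
  choose! Ad Bd hAd hAd1 hAd2 using hD
  have hsub : Rc δ G ξ η ⊆ ⋃ d ∈ D, (Oa (Ad d) (Bd d) ∪
      (((⋃ ζ ∈ (ta (Ad d) (Bd d) : Set Ordinal.{0}), Rc δ G ζ η) ∪
        (⋃ ζ ∈ (tb (Ad d) (Bd d) : Set Ordinal.{0}), Rc δ G ξ ζ)) ∪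
        ((⋃ y ∈ {y | y ∈ Fa (Ad d) (Bd d) ∧ y ∈ LoS δ G ξ},
          {p : Qt δ G × Qt δ G | p.1 = y ∧ p.2 ∈ LoS δ G η ∧ p.1 ≠ p.2}) ∪
        (⋃ y ∈ {y | y ∈ Fb (Ad d) (Bd d) ∧ y ∈ LoS δ G η},
          {p : Qt δ G × Qt δ G | p.2 = y ∧ p.1 ∈ LoS δ G ξ ∧ p.1 ≠ p.2})))) := by
    rintro ⟨p, q⟩ ⟨hp, hq, hpq⟩
    simp only at hp hq hpq
    have hA1 : {n | p.1 n ≤ (G ξ n : WithTop (L n))}.Infinite :=
      Nat.frequently_atTop_iff_infinite.1 hp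
    set A : Set ℕ := {n | p.1 n ≤ (G ξ n : WithTop (L n))} with hAdef
    obtain ⟨B, hB1, hB2, hB3⟩ := avoid (G := G) η (xA G ξ A)
      (Nat.frequently_atTop_iff_infinite.1 hq)
    have hne : xA G ξ A ≠ xA G η B := hB3.symm
    set d : Finset ℕ × Finset ℕ := (domF (sa A B), domF (sb A B)) with hdd
    have hd : d ∈ D := ⟨A, B, ⟨hA1, hB2, hne⟩, rfl, rfl⟩
    refine mem_iUnion₂.2 ⟨d, hd, ?_⟩
    obtain ⟨k1, k2, k3⟩ := hAd _ hd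
    have e1 := hAd1 _ hd
    have e2 := hAd2 _ hd
    have hU : InU (sa (Ad d) (Bd d)) p.1 := by
      refine inU_of_le (hsa _ _ k1 k2 k3).1 fun n hn => ?_
      rw [e1] at hn
      exact domF_sub (hsa A B hA1 hB2 hne).1 n hn
    have hU' : InU (sb (Ad d) (Bd d)) q.1 := by
      refine inU_of_le (hsb _ _ k1 k2 k3).1 fun n hn => ?_
      rw [e2] at hn
      exact hB1 (domF_sub (hsb A B hA1 hB2 hne).1 n hn)
    by_cases hW : InW δ G (ta (Ad d) (Bd d)) p.1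
    · by_cases hW' : InW δ G (tb (Ad d) (Bd d)) q.1
      · by_cases hF : p ∈ Fa (Ad d) (Bd d)
        · exact Or.inr (Or.inr (Or.inl (mem_iUnion₂.2 ⟨p, ⟨hF, hp⟩, rfl, hq, hpq⟩)))
        · by_cases hF' : q ∈ Fb (Ad d) (Bd d)
          · exact Or.inr (Or.inr (Or.inr (mem_iUnion₂.2 ⟨q, ⟨hF', hq⟩, rfl, hp, hpq⟩)))
          · exact Or.inl (hqa _ _ k1 k2 k3 ⟨⟨hU, hW, hF⟩, ⟨hU', hW', hF'⟩⟩)
      · rw [InW] at hW'
        push Not at hW'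
        obtain ⟨ζ, hζ, h⟩ := hW'
        exact Or.inr (Or.inl (Or.inr (mem_iUnion₂.2 ⟨ζ, hζ, hp,
          h ((hsb _ _ k1 k2 k3).2 ζ hζ).1, hpq⟩)))
    · rw [InW] at hW
      push Not at hW
      obtain ⟨ζ, hζ, h⟩ := hW
      exact Or.inr (Or.inl (Or.inl (mem_iUnion₂.2 ⟨ζ, hζ,
          h ((hsa _ _ k1 k2 k3).2 ζ hζ).1, hq, hpq⟩)))
  refine Cov.mono ?_ hsub
  refine Cov.biUnion (to_countable D) fun d hd => ?_
  obtain ⟨k1, k2, k3⟩ := hAd _ hd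
  refine Cov.union (Cov.of_mem (hOa _ _ k1 k2 k3)) (Cov.union (Cov.union ?_ ?_)
    (Cov.union ?_ ?_))
  · refine Cov.biUnion (Finset.countable_toSet _) fun ζ hζ => ?_
    obtain ⟨h1, h2⟩ := (hsa _ _ k1 k2 k3).2 ζ hζ
    have hlt : ζ < ξ := rank_lt hG k1 h1 h2
    exact cov_of_lindelof (ihξ ζ hlt h1 η hη) hO
      (fun p hp => hc ⟨Lo.mono hG hlt.le hξ hp.1, hp.2⟩)
  · refine Cov.biUnion (Finset.countable_toSet _) fun ζ hζ => ?_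
    obtain ⟨h1, h2⟩ := (hsb _ _ k1 k2 k3).2 ζ hζ
    have hlt : ζ < η := rank_lt hG k2 h1 h2
    exact cov_of_lindelof (ihη ζ hlt h1) hO
      (fun p hp => hc ⟨hp.1, Lo.mono hG hlt.le hη hp.2.1, hp.2.2⟩)
  · refine Cov.biUnion (((Finset.countable_toSet (Fa (Ad d) (Bd d)))).mono
      fun y hy => hy.1) fun y hy => ?_
    exact cov_of_lindelof (lind_left hG y η hη) hO
      (fun p hp => hc ⟨by rw [hp.1]; exact hy.2, hp.2.1, hp.2.2⟩)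
  · refine Cov.biUnion (((Finset.countable_toSet (Fb (Ad d) (Bd d)))).mono
      fun y hy => hy.1) fun y hy => ?_
    exact cov_of_lindelof (lind_right hG y ξ hξ) hO
      (fun p hp => hc ⟨hp.2.1, by rw [hp.1]; exact hy.2, hp.2.2⟩)

end Pool.Agent.Q252.CoDiag
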