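import Pool.Agent.Q252.CoDiag2

/-!
# A `T₁` space that is not Lindelöf and whose co-diagonal is discretely Lindelöf: discrete sets
-/

set_option autoImplicit false

open Set Topology Cardinal Filter

namespace Pool.Agent.Q252.CoDiag

open Pool.Agent.H960R3.DL

/-- `S` is unbounded in `δ`. -/
def Unb (δ : Ordinal.{0}) (S : Set Ordinal.{0}) : Prop := ∀ ζ < δ, ∃ ξ ∈ S, ζ ≤ ξ ∧ ξ < δ

theorem not_unb {δ : Ordinal.{0}} {S : Set Ordinal.{0}} (h : ¬ Unb δ S) :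
    ∃ b < δ, ∀ ξ ∈ S, b ≤ ξ → ξ < δ → False := by
  unfold Unb at h
  push Not at h
  obtain ⟨b, hb, h⟩ := h
  exact ⟨b, hb, fun ξ h1 h2 h3 => absurd h3 (not_lt.2 (h ξ h1 h2))⟩

/-- Finitely many bounds have a common bound. -/
theorem common {δ : Ordinal.{0}} (hδ : ⊥ < δ) {ι : Type*} (K : Finset ι) (P : ι → Ordinal.{0} → Prop)
    (h : ∀ k ∈ K, ∃ b < δ, ∀ ξ, b ≤ ξ → P k ξ) : ∃ b < δ, ∀ k ∈ K, ∀ ξ, b ≤ ξ → P k ξ := by
  choose! f hf hf' using h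
  exact ⟨K.sup f, (Finset.sup_lt_iff hδ).2 hf, fun k hk ξ hξ =>
    hf' k hk ξ ((Finset.le_sup hk).trans hξ)⟩

variable {L : ℕ → Type} [∀ n, LinearOrder (L n)]
variable {δ : Ordinal.{0}} {G : Ordinal.{0} → ∀ n, L n}

theorem core (hG : ∀ ξ < δ, ∀ η < ξ, ∀ᶠ n in atTop, G η n < G ξ n) (hδ : ⊥ < δ)
    {S : Set Ordinal.{0}} (hSδ : ∀ ξ ∈ S, ξ < δ) (hS : Unb δ S) (u w : Ordinal.{0} → Qt δ G)
    (s1 s2 : Finset (Σ n, L n)) (t1 t2 : Ordinal.{0} → Finset Ordinal.{0})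
    (F1 F2 : Ordinal.{0} → Finset (Qt δ G))
    (hu : ∀ ξ ∈ S, ¬ Lo G ξ (u ξ).1)
    (h1 : ∀ ξ ∈ S, u ξ ∈ Nb δ G s1 (t1 ξ) (F1 ξ))
    (h2 : ∀ ξ ∈ S, w ξ ∈ Nb δ G s2 (t2 ξ) (F2 ξ)) :
    ∃ i ∈ S, ∃ j ∈ S, u j ≠ u i ∧ u j ∈ Nb δ G s1 (t1 i) (F1 i) ∧ w j ∈ Nb δ G s2 (t2 i) (F2 i) := by
  classical
  -- step 1
  have hr : ∀ q : Qt δ G, ∃ ξ < δ, Lo G ξ q.1 := fun q => q.2
  have stepq : ∀ q : Qt δ G, ∃ b < δ, ∀ j, b ≤ j → (j ∈ S → u j ≠ q) := by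
    intro q
    obtain ⟨r, hr1, hr2⟩ := hr q
    exact ⟨r, hr1, fun j hj hjS h => hu j hjS (h ▸ Lo.mono hG hj (hSδ j hjS) hr2)⟩
  have step1 : ∀ i ∈ S, ∃ b < δ, ∀ j ∈ S, b ≤ j →
      u j ≠ u i ∧ u j ∈ Nb δ G s1 (t1 i) (F1 i) := by
    intro i hi
    obtain ⟨b1, hb1, hb1'⟩ := stepq (u i)
    obtain ⟨b2, hb2, hb2'⟩ := common hδ (F1 i) (fun q j => j ∈ S → u j ≠ q) (fun q _ => stepq q)
    obtain ⟨b3, hb3, hb3'⟩ := common hδ (t1 i) (fun ζ j => j ∈ S → ¬ Lo G ζ (u j).1) (by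
      intro ζ hζ
      refine ⟨ζ, ((h1 i hi).2.1 ζ hζ).1, fun j hj hjS h => hu j hjS ?_⟩
      exact Lo.mono hG hj (hSδ j hjS) h)
    refine ⟨max b1 (max b2 b3), max_lt hb1 (max_lt hb2 hb3), fun j hj hbj => ?_⟩
    obtain ⟨c1, c2⟩ := max_le_iff.1 hbj
    obtain ⟨c2, c3⟩ := max_le_iff.1 c2
    refine ⟨hb1' j c1 hj, (h1 j hj).1, fun ζ hζ => ⟨((h1 i hi).2.1 ζ hζ).1, hb3' ζ hζ j c3 hj⟩,
      fun hF => hb2' _ hF j c2 hj rfl⟩
  -- step 2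
  by_cases ha : ∃ q, Unb δ {j ∈ S | w j = q}
  · obtain ⟨q, hq⟩ := ha
    obtain ⟨i, hi, -, -⟩ := hq ⊥ hδ
    obtain ⟨b, hb, hb'⟩ := step1 i hi.1
    obtain ⟨j, hj, hbj, -⟩ := hq b hb
    refine ⟨i, hi.1, j, hj.1, (hb' j hj.1 hbj).1, (hb' j hj.1 hbj).2, ?_⟩
    rw [hj.2, ← hi.2]
    exact h2 i hi.1
  · push Not at ha
    -- a subfamily on which bounded ranks are bounded
    obtain ⟨S', hS'S, hS', hS'r⟩ : ∃ S' ⊆ S, Unb δ S' ∧ ∀ i ∈ S', ∀ ζ ∈ t2 i,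
        ¬ Unb δ {j ∈ S' | Lo G ζ (w j).1} := by
      by_cases hR : ∃ r, r < δ ∧ Unb δ {j ∈ S | Lo G r (w j).1}
      · let R : Set Ordinal.{0} := {r | r < δ ∧ Unb δ {j ∈ S | Lo G r (w j).1}}
        have hRn : R.Nonempty := hR
        let r := WellFounded.min (wellFounded_lt (α := Ordinal.{0})) R hRn
        have hr1 : r ∈ R := WellFounded.min_mem (wellFounded_lt (α := Ordinal.{0})) R hRn
        refine ⟨{j ∈ S | Lo G r (w j).1}, fun j hj => hj.1, hr1.2, fun i hi ζ hζ hun => ?_⟩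
        have h3 := (h2 i hi.1).2.1 ζ hζ
        have h4 : ζ < r := by
          by_contra h5
          rw [not_lt] at h5
          exact h3.2 (Lo.mono hG h5 h3.1 hi.2)
        have h5 : ζ ∈ R := by
          refine ⟨h3.1, fun b hb => ?_⟩
          obtain ⟨ξ, hξ, hξ'⟩ := hun b hb
          exact ⟨ξ, ⟨hξ.1.1, hξ.2⟩, hξ'⟩
        exact WellFounded.not_lt_min (wellFounded_lt (α := Ordinal.{0})) R h5 h4
      · refine ⟨S, Subset.rfl, hS, fun i hi ζ hζ hun => hR ⟨ζ, ((h2 i hi).2.1 ζ hζ).1, hun⟩⟩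
    obtain ⟨i, hi, -, -⟩ := hS' ⊥ hδ
    obtain ⟨b1, hb1, hb1'⟩ := step1 i (hS'S hi)
    obtain ⟨b2, hb2, hb2'⟩ := common hδ (F2 i) (fun q j => j ∈ S → w j ≠ q) (by
      intro q _
      obtain ⟨b, hb, hb'⟩ := not_unb (ha q)
      exact ⟨b, hb, fun j hj hjS h => hb' j ⟨hjS, h⟩ hj (hSδ j hjS)⟩)
    obtain ⟨b3, hb3, hb3'⟩ := common hδ (t2 i) (fun ζ j => j ∈ S' → ¬ Lo G ζ (w j).1) (by
      intro ζ hζ
      obtain ⟨b, hb, hb'⟩ := not_unb (hS'r i hi ζ hζ)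
      exact ⟨b, hb, fun j hj hjS h => hb' j ⟨hjS, h⟩ hj (hSδ j (hS'S hjS))⟩)
    obtain ⟨j, hj, hbj, -⟩ := hS' (max b1 (max b2 b3)) (max_lt hb1 (max_lt hb2 hb3))
    obtain ⟨c1, c2⟩ := max_le_iff.1 hbj
    obtain ⟨c2, c3⟩ := max_le_iff.1 c2
    have hjS := hS'S hj
    refine ⟨i, hS'S hi, j, hjS, (hb1' j hjS c1).1, (hb1' j hjS c1).2, (h2 j hjS).1,
      fun ζ hζ => ⟨((h2 i (hS'S hi)).2.1 ζ hζ).1, hb3' ζ hζ j c3 hj⟩,
      fun hF => hb2' _ hF j c2 hjS rfl⟩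

/-- The type of all finite sets of conditions is small. -/
theorem smC (hL : Big L) : Sm L ((Finset (Σ n, L n) × Finset (Σ n, L n)) × Bool) := by
  classical
  have hne : ∀ n, Nonempty (L n) := fun n => ⟨(hL n ∅ (Or.inl (by simp))).choose⟩
  have hinf : Infinite (Σ n, L n) := by
    have hmax : NoMaxOrder (L 0) := ⟨fun a => by
      obtain ⟨b, hb⟩ := hL 0 {a} (Or.inl (by
        rw [mk_singleton]
        exact one_lt_aleph0.le.trans aleph0_le_continuum))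
      exact ⟨b, hb a rfl⟩⟩
    have := hne 0
    have : Infinite (L 0) := NoMaxOrder.infinite
    exact Infinite.of_injective (fun a : L 0 => (⟨0, a⟩ : Σ n, L n)) sigma_mk_injective
  have hcard : #((Finset (Σ n, L n) × Finset (Σ n, L n)) × Bool) ≤ #(Σ n, L n) := by
    rw [mk_prod, lift_id, lift_id, mk_prod, lift_id, mk_finset_of_infinite,
      mul_eq_self (aleph0_le_mk _)]
    refine (mul_le_mul_right ((Cardinal.lt_aleph0_of_finite Bool).le.trans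
      (aleph0_le_mk (Σ n, L n))) _).trans ?_
    exact (mul_eq_self (aleph0_le_mk _)).le
  obtain ⟨e⟩ := hcard
  exact sm_of_inj hL e e.injective

/-- Discrete subsets of the co-diagonal have bounded rank. -/
theorem bounded (hL : Big L)
    (hG : ∀ ξ < δ, ∀ η < ξ, ∀ᶠ n in atTop, G η n < G ξ n)
    (hU : ∀ h : ∀ n, L n, ∃ ξ < δ, ∃ᶠ n in atTop, h n ≤ G ξ n)
    (D : Set {p : Qt δ G × Qt δ G // p.1 ≠ p.2}) (hD : DiscreteTopology D) :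
    ∃ ξ < δ, ∀ p ∈ D, p.1 ∈ Rc δ G ξ ξ := by
  classical
  by_contra hcon
  have hne : ∀ n, Nonempty (L n) := fun n => ⟨(hL n ∅ (Or.inl (by simp))).choose⟩
  obtain ⟨ξ0, hξ0, -⟩ := hU (fun n => (hne n).some)
  have hδ : (⊥ : Ordinal.{0}) < δ := lt_of_le_of_lt bot_le hξ0
  have h0 : ∀ ξ < δ, ∃ d ∈ D, (¬ Lo G ξ d.1.1.1) ∨ ¬ Lo G ξ d.1.2.1 := by
    intro ξ hξ
    by_contra h
    push Not at h
    exact hcon ⟨ξ, hξ, fun p hp => ⟨(h p hp).1, (h p hp).2, p.2⟩⟩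
  obtain ⟨p0, hp0, -⟩ := h0 ξ0 hξ0
  have : Nonempty {p : Qt δ G × Qt δ G // p.1 ≠ p.2} := ⟨p0⟩
  choose! d hd hd' using h0
  have h1 : ∀ ξ < δ, ∃ (s : Finset (Σ n, L n)) (t : Finset Ordinal.{0}) (F : Finset (Qt δ G))
      (s' : Finset (Σ n, L n)) (t' : Finset Ordinal.{0}) (F' : Finset (Qt δ G)),
      (d ξ).1.1 ∈ Nb δ G s t F ∧ (d ξ).1.2 ∈ Nb δ G s' t' F' ∧
      ∀ q ∈ D, q.1.1 ∈ Nb δ G s t F → q.1.2 ∈ Nb δ G s' t' F' → q = d ξ := by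
    intro ξ hξ
    have h2 : IsOpen ({⟨d ξ, hd ξ hξ⟩} : Set D) := isOpen_discrete _
    obtain ⟨U, hU1, hU2⟩ := isOpen_induced_iff.1 h2
    obtain ⟨V, hV1, hV2⟩ := isOpen_induced_iff.1 hU1
    have h3 : d ξ ∈ U := by
      have : (⟨d ξ, hd ξ hξ⟩ : D) ∈ (Subtype.val ⁻¹' U : Set D) := by rw [hU2]; rfl
      exact this
    have h3' : (d ξ).1 ∈ V := by
      rw [← hV2] at h3
      exact h3
    obtain ⟨A, B, hA, hB, hpA, hpB, hAB⟩ := isOpen_prod_iff.1 hV1 (d ξ).1.1 (d ξ).1.2 h3'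
    obtain ⟨s, t, F, h4, h5⟩ := isOpen_iffQ.1 hA _ hpA
    obtain ⟨s', t', F', h4', h5'⟩ := isOpen_iffQ.1 hB _ hpB
    refine ⟨s, t, F, s', t', F', h4, h4', fun q hqD a b => ?_⟩
    have h6 : q.1 ∈ V := hAB ⟨h5 a, h5' b⟩
    have h7 : q ∈ U := by
      rw [← hV2]
      exact h6
    have h8 : (⟨q, hqD⟩ : D) ∈ ({⟨d ξ, hd ξ hξ⟩} : Set D) := by
      rw [← hU2]
      exact h7
    exact congrArg Subtype.val h8
  choose! s t F s' t' F' hs hs' hq using h1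
  let b : Ordinal.{0} → Bool := fun ξ => decide (¬ Lo G ξ (d ξ).1.1.1)
  let c : Ordinal.{0} → (Finset (Σ n, L n) × Finset (Σ n, L n)) × Bool :=
    fun ξ => ((s ξ, s' ξ), b ξ)
  have hpig : ∃ c0, Unb δ {ξ | ξ < δ ∧ c ξ = c0} := by
    by_contra h
    have h' : ∀ c0, ∃ ζ < δ, ∀ ξ ∈ {ξ | ξ < δ ∧ c ξ = c0}, ζ ≤ ξ → ξ < δ → False := by
      intro c0
      exact not_unb fun hh => h ⟨c0, hh⟩
    choose z hz hz' using h'
    obtain ⟨ρ, hρ, hρ'⟩ := small_bdd hG hU (smC hL) z hz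
    exact hz' (c ρ) ρ ⟨hρ, rfl⟩ (hρ' _) hρ
  obtain ⟨c0, hc0⟩ := hpig
  set S : Set Ordinal.{0} := {ξ | ξ < δ ∧ c ξ = c0} with hSdef
  have hSδ : ∀ ξ ∈ S, ξ < δ := fun ξ h => h.1
  have hss : ∀ ξ ∈ S, s ξ = c0.1.1 := fun ξ h => by
    rw [← h.2]
  have hss' : ∀ ξ ∈ S, s' ξ = c0.1.2 := fun ξ h => by
    rw [← h.2]
  have hbb : ∀ ξ ∈ S, b ξ = c0.2 := fun ξ h => by
    rw [← h.2]
  rcases hb : c0.2 with _ | _
  · -- the second coordinate is unbounded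
    have hu : ∀ ξ ∈ S, ¬ Lo G ξ (d ξ).1.2.1 := by
      intro ξ hξ
      have h2 := hbb ξ hξ
      rw [hb] at h2
      have h3 : Lo G ξ (d ξ).1.1.1 := by
        by_contra h4
        have : b ξ = true := by simp [b, h4]
        rw [this] at h2
        exact Bool.noConfusion h2
      rcases hd' ξ (hSδ ξ hξ) with h4 | h4
      · exact absurd h3 h4
      · exact h4
    obtain ⟨i, hi, j, hj, e1, e2, e3⟩ := core hG hδ hSδ hc0 (fun ξ => (d ξ).1.2)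
      (fun ξ => (d ξ).1.1) c0.1.2 c0.1.1 t' t F' F hu
      (fun ξ hξ => by rw [← hss' ξ hξ]; exact hs' ξ (hSδ ξ hξ))
      (fun ξ hξ => by rw [← hss ξ hξ]; exact hs ξ (hSδ ξ hξ))
    refine e1 ?_
    rw [← hss' i hi] at e2
    rw [← hss i hi] at e3
    simp only [hq i (hSδ i hi) (d j) (hd j (hSδ j hj)) e3 e2]
  · have hu : ∀ ξ ∈ S, ¬ Lo G ξ (d ξ).1.1.1 := by
      intro ξ hξ
      have h2 := hbb ξ hξ
      rw [hb] at h2
      simpa [b] using h2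
    obtain ⟨i, hi, j, hj, e1, e2, e3⟩ := core hG hδ hSδ hc0 (fun ξ => (d ξ).1.1)
      (fun ξ => (d ξ).1.2) c0.1.1 c0.1.2 t t' F F' hu
      (fun ξ hξ => by rw [← hss ξ hξ]; exact hs ξ (hSδ ξ hξ))
      (fun ξ hξ => by rw [← hss' ξ hξ]; exact hs' ξ (hSδ ξ hξ))
    refine e1 ?_
    rw [← hss i hi] at e2
    rw [← hss' i hi] at e3
    simp only [hq i (hSδ i hi) (d j) (hd j (hSδ j hj)) e2 e3]

/-- The closures of the discrete subsets of the co-diagonal are Lindelöf. -/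
theorem closure_lindelof (hL : Big L)
    (hG : ∀ ξ < δ, ∀ η < ξ, ∀ᶠ n in atTop, G η n < G ξ n)
    (hU : ∀ h : ∀ n, L n, ∃ ξ < δ, ∃ᶠ n in atTop, h n ≤ G ξ n)
    (D : Set {p : Qt δ G × Qt δ G // p.1 ≠ p.2}) (hD : DiscreteTopology D) :
    IsLindelof (closure D) := by
  obtain ⟨ξ, hξ, hDξ⟩ := bounded hL hG hU D hD
  have h1 : IsLindelof ((Subtype.val : {p : Qt δ G × Qt δ G // p.1 ≠ p.2} → _) ⁻¹'
      (LoS δ G ξ ×ˢ LoS δ G ξ)) := by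
    rw [Subtype.isLindelof_iff]
    convert lind2 hG ξ hξ ξ hξ using 1
    ext p
    constructor
    · rintro ⟨q, hq, rfl⟩
      exact ⟨hq.1, hq.2, q.2⟩
    · rintro ⟨h2, h3, h4⟩
      exact ⟨⟨p, h4⟩, ⟨h2, h3⟩, rfl⟩
  refine h1.of_isClosed_subset isClosed_closure (closure_minimal ?_ ?_)
  · intro p hp
    exact ⟨(hDξ p hp).1, (hDξ p hp).2.1⟩
  · exact ((isClosed_LoS hξ).prod (isClosed_LoS hξ)).preimage continuous_subtype_val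

/-- The space has an open cover without a subcover of size at most `μ`. -/
theorem cover (μ : Cardinal.{0})
    (hU : ∀ h : ∀ n, L n, ∃ ξ < δ, ∃ᶠ n in atTop, h n ≤ G ξ n)
    (hL1 : ∀ n (a : L n), ∃ b, a < b)
    (hLμ : ∀ (n : ℕ) (s : Set (L n)), #s ≤ μ → ∃ b, ∀ a ∈ s, a < b) :
    ∃ 𝒰 : Set (Set (Qt δ G)), (∀ U ∈ 𝒰, IsOpen U) ∧ ⋃₀ 𝒰 = Set.univ ∧
      ∀ 𝒱 ⊆ 𝒰, #𝒱 ≤ μ → ⋃₀ 𝒱 ≠ Set.univ := by
  classical
  let U : (Σ n, L n) → Set (Qt δ G) := fun a => {p | p.1 a.1 < (a.2 : WithTop (L a.1))}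
  refine ⟨range U, ?_, ?_, ?_⟩
  · rintro _ ⟨a, rfl⟩
    exact isOpen_UQ a.1 a.2
  · refine eq_univ_of_forall fun p => ?_
    obtain ⟨ξ, hξ, hlo⟩ := p.2
    obtain ⟨n, hn⟩ := hlo.exists
    obtain ⟨b, hb⟩ := hL1 n (G ξ n)
    exact ⟨U ⟨n, b⟩, ⟨_, rfl⟩, hn.trans_lt (WithTop.coe_lt_coe.2 hb)⟩
  · intro V hV hVc hcov
    have hV4 : ∀ v : V, ∃ i, U i = v.1 := fun v => hV v.2
    choose c hc using hV4
    have h1 : ∀ n, ∃ b : L n, ∀ a : L n, (⟨n, a⟩ : Σ n, L n) ∈ range c → a < b := by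
      intro n
      have hcard : #((Sigma.mk n) ⁻¹' (range c) : Set (L n)) ≤ μ := by
        refine (mk_preimage_of_injective _ _ sigma_mk_injective).trans ?_
        exact mk_range_le.trans hVc
      exact hLμ n _ hcard
    choose h hh using h1
    obtain ⟨ξ, hξ, hf⟩ := hU h
    let A : Set ℕ := {n | h n ≤ G ξ n}
    have hA : A.Infinite := Nat.frequently_atTop_iff_infinite.1 hf
    have hx : pA δ G ξ hξ A hA ∈ ⋃₀ V := by rw [hcov]; trivial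
    obtain ⟨v', hv, hqv⟩ := hx
    obtain ⟨v, rfl⟩ : ∃ v : V, v.1 = v' := ⟨⟨v', hv⟩, rfl⟩
    have h2 : U (c v) = v := hc v
    rw [← h2] at hqv
    have h3 : xA G ξ A (c v).1 < ((c v).2 : WithTop (L (c v).1)) := hqv
    have h4 : (c v).2 < h (c v).1 := hh _ _ ⟨v, rfl⟩
    have h5 : (h (c v).1 : WithTop (L (c v).1)) ≤ xA G ξ A (c v).1 := by
      by_cases hn : (c v).1 ∈ A
      · simp only [xA, hn, if_true]
        exact WithTop.coe_le_coe.2 hn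
      · simp [xA, hn]
    exact absurd (h5.trans_lt (h3.trans (WithTop.coe_lt_coe.2 h4))) (lt_irrefl _)

end Pool.Agent.Q252.CoDiag
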