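import Mathlib

/-!
# Hamilton cycles of the generalized Petersen graphs `GP(16 + 6t, 2)`
-/

set_option autoImplicit false

namespace Pool.Agent.Q252.HE

open SimpleGraph

/-! ## Hamilton cycles from cyclic sequences -/

theorem exists_walk {V : Type*} {G : SimpleGraph V} {n : ℕ} (f : ℕ → V)
    (hf : ∀ i, i + 1 < n → G.Adj (f i) (f (i + 1))) : ∀ m, m < n →
    ∃ q : G.Walk (f 0) (f m), q.support = (List.range (m + 1)).map f ∧
      q.edges = (List.range m).map fun i => s(f i, f (i + 1)) := by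
  intro m
  induction m with
  | zero => intro _; exact ⟨Walk.nil, by simp, by simp⟩
  | succ m ih =>
    intro hm
    obtain ⟨q, h1, h2⟩ := ih (by omega)
    refine ⟨q.concat (hf m hm), ?_, ?_⟩
    · rw [Walk.support_concat, h1, List.range_succ (n := m + 1), List.map_append]
      simp
    · rw [Walk.edges_concat, h2, List.range_succ, List.map_append, List.concat_eq_append]
      simp

theorem ham_of_seq {V : Type*} [Fintype V] {G : SimpleGraph V} {n : ℕ} (h3 : 3 ≤ n)
    (hc : Fintype.card V = n) (f : ℕ → V)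
    (hf : ∀ i, i + 1 < n → G.Adj (f i) (f (i + 1))) (hl : G.Adj (f (n - 1)) (f 0))
    (hinj : ∀ i j, i < n → j < n → f i = f j → i = j) :
    ∃ (u : V) (q : G.Walk u u), q.IsCycle ∧ (∀ v, v ∈ q.support) ∧
      ∀ i, i + 1 < n → s(f i, f (i + 1)) ∈ q.edges := by
  classical
  have hsurj : ∀ v, ∃ i, i < n ∧ f i = v := by
    have hi : Function.Injective (fun i : Fin n => f i.val) := by
      intro i j hij
      exact Fin.ext (hinj i j i.2 j.2 hij)
    have hb : Function.Bijective (fun i : Fin n => f i.val) := by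
      rw [Fintype.bijective_iff_injective_and_card]
      exact ⟨hi, by rw [hc, Fintype.card_fin]⟩
    intro v
    obtain ⟨i, hi⟩ := hb.2 v
    exact ⟨i.val, i.2, hi⟩
  obtain ⟨q, h1, h2⟩ := exists_walk f hf (n - 1) (by omega)
  have hn : n - 1 + 1 = n := by omega
  rw [hn] at h1
  have hnodup : q.support.Nodup := by
    rw [h1]
    refine List.Nodup.map_on ?_ List.nodup_range
    intro i hi j hj hij
    rw [List.mem_range] at hi hj
    exact hinj i j hi hj hij
  refine ⟨f (n - 1), Walk.cons hl q, ?_, ?_, ?_⟩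
  · rw [Walk.cons_isCycle_iff]
    refine ⟨Walk.IsPath.mk' hnodup, ?_⟩
    intro he
    rw [h2, List.mem_map] at he
    obtain ⟨i, hi, h⟩ := he
    rw [List.mem_range] at hi
    rw [Sym2.eq_iff] at h
    rcases h with ⟨h1, _⟩ | ⟨h1, h2⟩
    · have := hinj i (n - 1) (by omega) (by omega) h1
      omega
    · have := hinj i 0 (by omega) (by omega) h1
      have := hinj (i + 1) (n - 1) (by omega) (by omega) h2
      omega
  · intro v
    obtain ⟨i, hi, rfl⟩ := hsurj v
    rw [Walk.support_cons, h1]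
    exact List.mem_cons_of_mem _ (List.mem_map.2 ⟨i, List.mem_range.2 hi, rfl⟩)
  · intro i hi
    rw [Walk.edges_cons, h2]
    exact List.mem_cons_of_mem _ (List.mem_map.2 ⟨i, List.mem_range.2 (by omega), rfl⟩)

/-! ## The graphs -/

/-- One step in the generalized Petersen graph: `0` is forward, `1` is backward, `2` is a spoke. -/
def stp {n : ℕ} (s : Fin 3) (x : ZMod n × Bool) : ZMod n × Bool :=
  if s = 0 then (x.1 + (if x.2 then 2 else 1), x.2)
  else if s = 1 then (x.1 - (if x.2 then 2 else 1), x.2)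
  else (x.1, !x.2)

/-- The generalized Petersen graph `GP(n, 2)`. -/
def gp (n : ℕ) : SimpleGraph (ZMod n × Bool) where
  Adj x y := x ≠ y ∧ ∃ s, y = stp s x
  symm := by
    constructor
    rintro x y ⟨hne, s, hs⟩
    refine ⟨hne.symm, ?_⟩
    obtain ⟨i, l⟩ := x
    obtain ⟨j, k⟩ := y
    fin_cases s
    · refine ⟨1, ?_⟩
      simp [stp] at hs ⊢
      obtain ⟨h1, h2⟩ := hs
      subst h2
      rw [h1]
      simp
    · refine ⟨0, ?_⟩
      simp [stp] at hs ⊢
      obtain ⟨h1, h2⟩ := hs
      subst h2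
      rw [h1]
      simp
    · refine ⟨2, ?_⟩
      simp [stp] at hs ⊢
      obtain ⟨h1, h2⟩ := hs
      subst h2
      rw [h1]
      simp
  loopless := by
    constructor
    rintro x ⟨h, -⟩
    exact h rfl

theorem natCast_ne_zero {n k : ℕ} (h0 : 0 < k) (hk : k < n) : (k : ZMod n) ≠ 0 := by
  intro h
  rw [ZMod.natCast_eq_zero_iff] at h
  exact absurd (Nat.le_of_dvd h0 h) (by omega)

theorem stp_ne {n : ℕ} (hn : 5 ≤ n) (s : Fin 3) (x : ZMod n × Bool) : x ≠ stp s x := by
  have h1 : (1 : ZMod n) ≠ 0 := by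
    have := natCast_ne_zero (n := n) (k := 1) (by omega) (by omega)
    simpa using this
  have h2 : (2 : ZMod n) ≠ 0 := by
    have := natCast_ne_zero (n := n) (k := 2) (by omega) (by omega)
    simpa using this
  intro h
  obtain ⟨i, l⟩ := x
  fin_cases s <;> cases l <;> simp [stp] at h
  · exact h1 h
  · exact h2 h
  · exact h1 (sub_eq_self.1 h.symm)
  · exact h2 (sub_eq_self.1 h.symm)

theorem gp_adj {n : ℕ} (hn : 5 ≤ n) (x y : ZMod n × Bool) :
    (gp n).Adj x y ↔ ∃ s, y = stp s x := by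
  constructor
  · rintro ⟨-, h⟩
    exact h
  · rintro ⟨s, rfl⟩
    exact ⟨stp_ne hn s x, s, rfl⟩

/-- The map from the integer strip to the graph. -/
def psi (n : ℕ) (e : ℤ) (k : ZMod n) (y : ℕ × Bool) : ZMod n × Bool :=
  (((e * (y.1 : ℤ) : ℤ) : ZMod n) + k, y.2)

/-- Two positions of the strip are adjacent, possibly around the seam. -/
def R (n : ℕ) (y z : ℕ × Bool) : Prop :=
  (y.2 = false ∧ z.2 = false ∧ (z.1 = y.1 + 1 ∨ y.1 = z.1 + 1 ∨ z.1 + 1 = y.1 + n ∨
    y.1 + 1 = z.1 + n)) ∨
  (y.2 = true ∧ z.2 = true ∧ (z.1 = y.1 + 2 ∨ y.1 = z.1 + 2 ∨ z.1 + 2 = y.1 + n ∨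
    y.1 + 2 = z.1 + n)) ∨
  (y.2 = !z.2 ∧ y.1 = z.1)

theorem adj_psi {n : ℕ} (hn : 5 ≤ n) {e : ℤ} (he : e = 1 ∨ e = -1) (k : ZMod n) {y z : ℕ × Bool}
    (h : R n y z) : (gp n).Adj (psi n e k y) (psi n e k z) := by
  obtain ⟨i, l⟩ := y
  obtain ⟨j, m⟩ := z
  have hadd : ∀ d : ZMod n, ((j : ℤ) : ZMod n) = ((i : ℤ) : ZMod n) + d → 
      (d = (if l then 2 else 1) ∨ d = -(if l then 2 else 1)) → m = l →
      (gp n).Adj (psi n e k (i, l)) (psi n e k (j, m)) := by
    rintro d hd h12 rfl
    rw [gp_adj hn]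
    rcases he with rfl | rfl <;> rcases h12 with rfl | rfl
    · refine ⟨0, ?_⟩
      simp only [psi, stp, one_mul, hd, Fin.isValue, ↓reduceIte, Prod.mk.injEq, and_true]
      ring
    · refine ⟨1, ?_⟩
      simp only [psi, stp, one_mul, hd, Fin.isValue, ↓reduceIte, Prod.mk.injEq, and_true,
        one_ne_zero]
      ring
    · refine ⟨1, ?_⟩
      simp only [psi, stp, Int.cast_mul, hd, Fin.isValue, ↓reduceIte, Prod.mk.injEq, and_true,
        one_ne_zero, Int.cast_neg, Int.cast_one]
      ring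
    · refine ⟨0, ?_⟩
      simp only [psi, stp, Int.cast_mul, hd, Fin.isValue, ↓reduceIte, Prod.mk.injEq, and_true,
        Int.cast_neg, Int.cast_one]
      ring
  have hn0 : ((n : ℕ) : ZMod n) = 0 := ZMod.natCast_self n
  rcases h with ⟨hl, hm, h⟩ | ⟨hl, hm, h⟩ | ⟨hl, h⟩
  · simp only at hl hm h
    subst hl hm
    rcases h with h | h | h | h
    · apply hadd 1 _ (Or.inl rfl) rfl
      rw [h]; push_cast; ring
    · apply hadd (-1) _ (Or.inr rfl) rfl
      rw [h]; push_cast; ring
    · apply hadd (-1) _ (Or.inr rfl) rfl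
      have : ((j + 1 : ℕ) : ZMod n) = ((i + n : ℕ) : ZMod n) := by rw [h]
      push_cast at this ⊢
      rw [hn0, add_zero] at this
      rw [← this]; ring
    · apply hadd 1 _ (Or.inl rfl) rfl
      have : ((i + 1 : ℕ) : ZMod n) = ((j + n : ℕ) : ZMod n) := by rw [h]
      push_cast at this ⊢
      rw [hn0, add_zero] at this
      rw [← this]
  · simp only at hl hm h
    subst hl hm
    rcases h with h | h | h | h
    · apply hadd 2 _ (Or.inl rfl) rfl
      rw [h]; push_cast; ring
    · apply hadd (-2) _ (Or.inr rfl) rfl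
      rw [h]; push_cast; ring
    · apply hadd (-2) _ (Or.inr rfl) rfl
      have : ((j + 2 : ℕ) : ZMod n) = ((i + n : ℕ) : ZMod n) := by rw [h]
      push_cast at this ⊢
      rw [hn0, add_zero] at this
      rw [← this]; ring
    · apply hadd 2 _ (Or.inl rfl) rfl
      have : ((i + 2 : ℕ) : ZMod n) = ((j + n : ℕ) : ZMod n) := by rw [h]
      push_cast at this ⊢
      rw [hn0, add_zero] at this
      rw [← this]
  · simp only at hl h
    subst h
    rw [gp_adj hn]
    refine ⟨2, ?_⟩
    simp [psi, stp, hl]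

theorem psi_inj {n : ℕ} {e : ℤ} (he : e = 1 ∨ e = -1) (k : ZMod n) {y z : ℕ × Bool}
    (hy : y.1 < n) (hz : z.1 < n) (h : psi n e k y = psi n e k z) : y = z := by
  simp only [psi, Prod.mk.injEq, add_left_inj] at h
  obtain ⟨h1, h2⟩ := h
  have h3 : ((y.1 : ℕ) : ZMod n) = ((z.1 : ℕ) : ZMod n) := by
    rcases he with rfl | rfl
    · simpa using h1
    · simpa using h1
  rw [ZMod.natCast_eq_natCast_iff'] at h3
  rw [Nat.mod_eq_of_lt hy, Nat.mod_eq_of_lt hz] at h3
  exact Prod.ext h3 h2

/-! ## The two cyclic sequences -/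

/-- First part of the first sequence. -/
def preA : List (ℕ × Bool) := [(1, true), (3, true), (5, true), (7, true), (7, false), (6, false),
  (5, false), (4, false), (3, false), (2, false), (1, false), (0, false), (0, true), (2, true),
  (4, true), (6, true), (8, true), (8, false), (9, false)]

/-- Block of the first sequence. -/
def blkA : List (ℕ × Bool) := [(9, true), (11, true), (13, true), (13, false), (12, false),
  (11, false), (10, false), (10, true), (12, true), (14, true), (14, false), (15, false)]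

/-- The first sequence. -/
def cA (m : ℕ) : ℕ × Bool :=
  if m < 19 then preA.getD m (0, false)
  else ((blkA.getD ((m - 19) % 12) (0, false)).1 + 6 * ((m - 19) / 12),
    (blkA.getD ((m - 19) % 12) (0, false)).2)

theorem cA_blk (j r : ℕ) (hr : r < 12) : cA (19 + 12 * j + r) =
    ((blkA.getD r (0, false)).1 + 6 * j, (blkA.getD r (0, false)).2) := by
  have h1 : ¬ (19 + 12 * j + r < 19) := by omega
  have h2 : (19 + 12 * j + r - 19) % 12 = r := by omega
  have h3 : (19 + 12 * j + r - 19) / 12 = j := by omega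
  rw [cA, if_neg h1, h2, h3]

/-- The index of a position in the first sequence. -/
def idxA (y : ℕ × Bool) : ℕ :=
  if y.2 then (if y.1 < 9 then [12, 0, 13, 1, 14, 2, 15, 3, 16].getD y.1 0
    else 19 + 12 * ((y.1 - 9) / 6) + [0, 7, 1, 8, 2, 9].getD ((y.1 - 9) % 6) 0)
  else (if y.1 < 10 then [11, 10, 9, 8, 7, 6, 5, 4, 17, 18].getD y.1 0
    else 19 + 12 * ((y.1 - 10) / 6) + [6, 5, 4, 3, 10, 11].getD ((y.1 - 10) % 6) 0)

theorem idxA_in (a j : ℕ) (ha : a < 6) : idxA (9 + a + 6 * j, true) =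
    19 + 12 * j + [0, 7, 1, 8, 2, 9].getD a 0 := by
  have h1 : ¬ (9 + a + 6 * j < 9) := by omega
  have h2 : (9 + a + 6 * j - 9) % 6 = a := by omega
  have h3 : (9 + a + 6 * j - 9) / 6 = j := by omega
  simp only [idxA, if_true]
  rw [if_neg h1, h2, h3]

theorem idxA_out (a j : ℕ) (ha : a < 6) : idxA (10 + a + 6 * j, false) =
    19 + 12 * j + [6, 5, 4, 3, 10, 11].getD a 0 := by
  have h1 : ¬ (10 + a + 6 * j < 10) := by omega
  have h2 : (10 + a + 6 * j - 10) % 6 = a := by omega
  have h3 : (10 + a + 6 * j - 10) / 6 = j := by omega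
  simp only [idxA, Bool.false_eq_true, if_false]
  rw [if_neg h1, h2, h3]

theorem split12 (m : ℕ) : m < 19 ∨ ∃ j r, r < 12 ∧ m = 19 + 12 * j + r := by
  by_cases h : m < 19
  · exact Or.inl h
  · exact Or.inr ⟨(m - 19) / 12, (m - 19) % 12, by omega, by omega⟩

theorem idxA_cA (m : ℕ) : idxA (cA m) = m := by
  rcases split12 m with h | ⟨j, r, hr, rfl⟩
  · interval_cases m <;> rfl
  · rw [cA_blk j r hr]
    interval_cases r
    · exact idxA_in 0 j (by omega)
    · exact idxA_in 2 j (by omega)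
    · exact idxA_in 4 j (by omega)
    · exact idxA_out 3 j (by omega)
    · exact idxA_out 2 j (by omega)
    · exact idxA_out 1 j (by omega)
    · exact idxA_out 0 j (by omega)
    · exact idxA_in 1 j (by omega)
    · exact idxA_in 3 j (by omega)
    · exact idxA_in 5 j (by omega)
    · exact idxA_out 4 j (by omega)
    · exact idxA_out 5 j (by omega)

theorem cA_lt (t m : ℕ) (hm : m < 32 + 12 * t) : (cA m).1 < 16 + 6 * t := by
  rcases split12 m with h | ⟨j, r, hr, rfl⟩
  · interval_cases m <;> simp [cA, preA] <;> omega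
  · rw [cA_blk j r hr]
    interval_cases r <;> simp [blkA] <;> omega

theorem R_cA (t m : ℕ) (hm : m + 1 < 32 + 12 * t) : R (16 + 6 * t) (cA m) (cA (m + 1)) := by
  rcases split12 m with h | ⟨j, r, hr, rfl⟩
  · by_cases h18 : m = 18
    · subst h18
      right; right
      exact ⟨rfl, rfl⟩
    · interval_cases m <;> simp [R, cA, preA] at h18 ⊢
  · rw [cA_blk j r hr]
    by_cases h11 : r = 11
    · subst h11
      have : 19 + 12 * j + 11 + 1 = 19 + 12 * (j + 1) + 0 := by ring
      rw [this, cA_blk (j + 1) 0 (by omega)]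
      right; right
      simp [blkA]
      ring
    · have : 19 + 12 * j + r + 1 = 19 + 12 * j + (r + 1) := by ring
      rw [this, cA_blk j (r + 1) (by omega)]
      interval_cases r <;> simp [R, blkA] at h11 ⊢ <;> omega

theorem R_cA_last (t : ℕ) : R (16 + 6 * t) (cA (32 + 12 * t - 1)) (cA 0) := by
  have : 32 + 12 * t - 1 = 19 + 12 * (t + 1) + 0 := by omega
  rw [this, cA_blk (t + 1) 0 (by omega)]
  right; left
  refine ⟨rfl, rfl, ?_⟩
  simp [blkA, cA, preA]
  omega

/-- First part of the second sequence. -/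
def preB : List (ℕ × Bool) := [(9, false), (9, true), (7, true), (5, true), (5, false), (4, false),
  (3, false), (3, true), (1, true), (1, false), (2, false)]

/-- Right-going block of the second sequence. -/
def blkR : List (ℕ × Bool) := [(2, true), (4, true), (6, true), (6, false), (7, false), (8, false)]

/-- Left-going block of the second sequence. -/
def blkL : List (ℕ × Bool) := [(9, false), (9, true), (7, true), (5, true), (5, false), (4, false)]

/-- The second sequence. -/
def cB (t m : ℕ) : ℕ × Bool :=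
  if m < 11 then preB.getD m (0, false)
  else if m < 24 + 6 * t then ((blkR.getD ((m - 11) % 6) (0, false)).1 + 6 * ((m - 11) / 6),
    (blkR.getD ((m - 11) % 6) (0, false)).2)
  else if m = 24 + 6 * t then (0, true)
  else if m = 25 + 6 * t then (0, false)
  else ((blkL.getD ((m - (26 + 6 * t)) % 6) (0, false)).1 + 6 * (t + 1 - (m - (26 + 6 * t)) / 6),
    (blkL.getD ((m - (26 + 6 * t)) % 6) (0, false)).2)

theorem cB_R (t j r : ℕ) (hr : r < 6) (h : 11 + 6 * j + r < 24 + 6 * t) :
    cB t (11 + 6 * j + r) =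
    ((blkR.getD r (0, false)).1 + 6 * j, (blkR.getD r (0, false)).2) := by
  have h1 : ¬ (11 + 6 * j + r < 11) := by omega
  have h2 : (11 + 6 * j + r - 11) % 6 = r := by omega
  have h3 : (11 + 6 * j + r - 11) / 6 = j := by omega
  rw [cB, if_neg h1, if_pos h, h2, h3]

theorem cB_m1 (t : ℕ) : cB t (24 + 6 * t) = (0, true) := by
  rw [cB, if_neg (by omega), if_neg (by omega), if_pos rfl]

theorem cB_m2 (t : ℕ) : cB t (25 + 6 * t) = (0, false) := by
  rw [cB, if_neg (by omega), if_neg (by omega), if_neg (by omega), if_pos rfl]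

theorem cB_L (t i j r : ℕ) (hr : r < 6) (h : i + j = t + 1) :
    cB t (26 + 6 * t + 6 * i + r) =
    ((blkL.getD r (0, false)).1 + 6 * j, (blkL.getD r (0, false)).2) := by
  have h1 : ¬ (26 + 6 * t + 6 * i + r < 11) := by omega
  have h2 : (26 + 6 * t + 6 * i + r - (26 + 6 * t)) % 6 = r := by omega
  have h3 : (26 + 6 * t + 6 * i + r - (26 + 6 * t)) / 6 = i := by omega
  have h4 : t + 1 - i = j := by omega
  rw [cB, if_neg h1, if_neg (by omega), if_neg (by omega), if_neg (by omega), h2, h3, h4]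

theorem splitB (t m : ℕ) (hm : m < 32 + 12 * t) : m < 11 ∨
    (∃ j r, r < 6 ∧ m = 11 + 6 * j + r ∧ 11 + 6 * j + r < 24 + 6 * t) ∨ m = 24 + 6 * t ∨
    m = 25 + 6 * t ∨ ∃ i j r, r < 6 ∧ i + j = t + 1 ∧ 1 ≤ j ∧ m = 26 + 6 * t + 6 * i + r := by
  by_cases h : m < 11
  · exact Or.inl h
  by_cases h' : m < 24 + 6 * t
  · right; left
    exact ⟨(m - 11) / 6, (m - 11) % 6, by omega, by omega, by omega⟩
  by_cases h1 : m = 24 + 6 * t
  · right; right; left; exact h1
  by_cases h2 : m = 25 + 6 * t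
  · right; right; right; left; exact h2
  right; right; right; right
  exact ⟨(m - (26 + 6 * t)) / 6, t + 1 - (m - (26 + 6 * t)) / 6, (m - (26 + 6 * t)) % 6,
    by omega, by omega, by omega, by omega⟩

/-- The index of a position in the second sequence. -/
def idxB (t : ℕ) (y : ℕ × Bool) : ℕ :=
  if y.2 then
    (if y.1 = 0 then 24 + 6 * t
     else if y.1 % 2 = 0 then 11 + 6 * ((y.1 - 2) / 6) + ((y.1 - 2) % 6) / 2
     else if y.1 < 10 then [0, 8, 0, 7, 0, 3, 0, 2, 0, 1].getD y.1 0
     else 26 + 6 * t + 6 * (t + 1 - (y.1 - 5) / 6) + (3 - ((y.1 - 5) % 6) / 2))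
  else
    (if y.1 = 0 then 25 + 6 * t
     else if y.1 < 6 then [0, 9, 10, 6, 5, 4].getD y.1 0
     else if y.1 % 6 < 3 then 11 + 6 * ((y.1 - 6) / 6) + 3 + (y.1 - 6) % 6
     else if y.1 = 9 then 0
     else if y.1 % 6 = 3 then 26 + 6 * t + 6 * (t + 1 - (y.1 - 9) / 6)
     else if y.1 % 6 = 4 then 26 + 6 * t + 6 * (t + 1 - (y.1 - 4) / 6) + 5
     else 26 + 6 * t + 6 * (t + 1 - (y.1 - 5) / 6) + 4)

theorem idxB_cB (t m : ℕ) (hm : m < 32 + 12 * t) : idxB t (cB t m) = m := by
  rcases splitB t m hm with h | ⟨j, r, hr, rfl, h⟩ | rfl | rfl | ⟨i, j, r, hr, hij, hj, rfl⟩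
  · have : cB t m = preB.getD m (0, false) := by rw [cB, if_pos h]
    rw [this]
    interval_cases m <;> rfl
  · rw [cB_R t j r hr h]
    interval_cases r <;> simp [blkR, idxB] <;> split_ifs <;> omega
  · rw [cB_m1]; simp [idxB]
  · rw [cB_m2]; simp [idxB]
  · rw [cB_L t i j r hr hij]
    interval_cases r <;> simp [blkL, idxB] <;> split_ifs <;> omega

theorem cB_lt (t m : ℕ) (hm : m < 32 + 12 * t) : (cB t m).1 < 16 + 6 * t := by
  rcases splitB t m hm with h | ⟨j, r, hr, rfl, h⟩ | rfl | rfl | ⟨i, j, r, hr, hij, hj, rfl⟩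
  · have : cB t m = preB.getD m (0, false) := by rw [cB, if_pos h]
    rw [this]
    interval_cases m <;> simp [preB] <;> omega
  · rw [cB_R t j r hr h]
    interval_cases r <;> simp [blkR] <;> omega
  · rw [cB_m1]; simp
  · rw [cB_m2]; simp
  · rw [cB_L t i j r hr hij]
    interval_cases r <;> simp [blkL] <;> omega

theorem R_cB (t m : ℕ) (hm : m + 1 < 32 + 12 * t) : R (16 + 6 * t) (cB t m) (cB t (m + 1)) := by
  rcases splitB t m (by omega) with h | ⟨j, r, hr, rfl, h⟩ | rfl | rfl |
    ⟨i, j, r, hr, hij, hj, rfl⟩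
  · have h1 : cB t m = preB.getD m (0, false) := by rw [cB, if_pos h]
    by_cases h10 : m = 10
    · subst h10
      have h2 := cB_R t 0 0 (by omega) (by omega)
      simp only [mul_zero, add_zero] at h2
      rw [h1, h2]
      right; right
      exact ⟨rfl, rfl⟩
    · have h2 : cB t (m + 1) = preB.getD (m + 1) (0, false) := by rw [cB, if_pos (by omega)]
      rw [h1, h2]
      interval_cases m <;> simp [R, preB] at h10 ⊢
  · rw [cB_R t j r hr h]
    by_cases h23 : 11 + 6 * j + r = 23 + 6 * t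
    · have hr0 : r = 0 := by omega
      subst hr0
      have : 11 + 6 * j + 0 + 1 = 24 + 6 * t := by omega
      rw [this, cB_m1]
      right; left
      refine ⟨rfl, rfl, ?_⟩
      simp [blkR]
      omega
    · by_cases h5 : r = 5
      · subst h5
        have : 11 + 6 * j + 5 + 1 = 11 + 6 * (j + 1) + 0 := by ring
        rw [this, cB_R t (j + 1) 0 (by omega) (by omega)]
        right; right
        simp [blkR]
        ring
      · have : 11 + 6 * j + r + 1 = 11 + 6 * j + (r + 1) := by ring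
        rw [this, cB_R t j (r + 1) (by omega) (by omega)]
        interval_cases r <;> simp [R, blkR] at h5 ⊢ <;> omega
  · have : 24 + 6 * t + 1 = 25 + 6 * t := by ring
    rw [this, cB_m1, cB_m2]
    right; right
    exact ⟨rfl, rfl⟩
  · have : 25 + 6 * t + 1 = 26 + 6 * t + 6 * 0 + 0 := by ring
    rw [this, cB_L t 0 (t + 1) 0 (by omega) (by omega), cB_m2]
    left
    refine ⟨rfl, rfl, ?_⟩
    simp [blkL]
    omega
  · rw [cB_L t i j r hr hij]
    by_cases h5 : r = 5
    · subst h5
      have : 26 + 6 * t + 6 * i + 5 + 1 = 26 + 6 * t + 6 * (i + 1) + 0 := by ring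
      rw [this, cB_L t (i + 1) (j - 1) 0 (by omega) (by omega)]
      left
      refine ⟨rfl, rfl, ?_⟩
      simp [blkL]
      omega
    · have : 26 + 6 * t + 6 * i + r + 1 = 26 + 6 * t + 6 * i + (r + 1) := by ring
      rw [this, cB_L t i j (r + 1) (by omega) hij]
      interval_cases r <;> simp [R, blkL] at h5 ⊢ <;> omega

theorem R_cB_last (t : ℕ) : R (16 + 6 * t) (cB t (32 + 12 * t - 1)) (cB t 0) := by
  have : 32 + 12 * t - 1 = 26 + 6 * t + 6 * t + 5 := by omega
  rw [this, cB_L t t 1 5 (by omega) (by omega)]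
  have h0 : cB t 0 = preB.getD 0 (0, false) := by rw [cB, if_pos (by omega)]
  rw [h0]
  left
  refine ⟨rfl, rfl, ?_⟩
  simp [blkL, preB]

end Pool.Agent.Q252.HE
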