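import Pool.Agent.Q252.HE

/-!
# Every path with at most five vertices of `GP(16 + 6t, 2)` lies on a Hamilton cycle
-/

set_option autoImplicit false

namespace Pool.Agent.Q252.HE

open SimpleGraph

theorem ham_A (t : ℕ) {e : ℤ} (he : e = 1 ∨ e = -1) (k : ZMod (16 + 6 * t)) :
    ∃ (u : ZMod (16 + 6 * t) × Bool) (q : (gp (16 + 6 * t)).Walk u u), q.IsCycle ∧
      (∀ v, v ∈ q.support) ∧
      ∀ m, m + 1 < 32 + 12 * t → s(psi _ e k (cA m), psi _ e k (cA (m + 1))) ∈ q.edges := by
  have : NeZero (16 + 6 * t) := ⟨by omega⟩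
  refine ham_of_seq (n := 32 + 12 * t) (by omega) ?_ (fun m => psi _ e k (cA m)) ?_ ?_ ?_
  · rw [Fintype.card_prod, ZMod.card, Fintype.card_bool]
    ring
  · intro i hi
    exact adj_psi (by omega) he k (R_cA t i hi)
  · exact adj_psi (by omega) he k (R_cA_last t)
  · intro i j hi hj h
    have := psi_inj he k (cA_lt t i hi) (cA_lt t j hj) h
    rw [← idxA_cA i, ← idxA_cA j, this]

theorem ham_B (t : ℕ) {e : ℤ} (he : e = 1 ∨ e = -1) (k : ZMod (16 + 6 * t)) :
    ∃ (u : ZMod (16 + 6 * t) × Bool) (q : (gp (16 + 6 * t)).Walk u u), q.IsCycle ∧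
      (∀ v, v ∈ q.support) ∧
      ∀ m, m + 1 < 32 + 12 * t → s(psi _ e k (cB t m), psi _ e k (cB t (m + 1))) ∈ q.edges := by
  have : NeZero (16 + 6 * t) := ⟨by omega⟩
  refine ham_of_seq (n := 32 + 12 * t) (by omega) ?_ (fun m => psi _ e k (cB t m)) ?_ ?_ ?_
  · rw [Fintype.card_prod, ZMod.card, Fintype.card_bool]
    ring
  · intro i hi
    exact adj_psi (by omega) he k (R_cB t i hi)
  · exact adj_psi (by omega) he k (R_cB_last t)
  · intro i j hi hj h
    have := psi_inj he k (cB_lt t i hi) (cB_lt t j hj) h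
    rw [← idxB_cB t i hi, ← idxB_cB t j hj, this]

theorem cB_eq (t m : ℕ) (hm : m < 24) : cB t m = cB 0 m := by
  by_cases h : m < 11
  · rw [cB, cB, if_pos h, if_pos h]
  · obtain ⟨j, r, hr, rfl⟩ : ∃ j r, r < 6 ∧ m = 11 + 6 * j + r :=
      ⟨(m - 11) / 6, (m - 11) % 6, by omega, by omega⟩
    rw [cB_R t j r hr (by omega), cB_R 0 j r hr (by omega)]

/-! ## Steps -/

/-- Steps in the integer strip. -/
def stz (s : Fin 3) (x : ℤ × Bool) : ℤ × Bool :=
  if s = 0 then (x.1 + (if x.2 then 2 else 1), x.2)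
  else if s = 1 then (x.1 - (if x.2 then 2 else 1), x.2)
  else (x.1, !x.2)

/-- The opposite step. -/
def opp (s : Fin 3) : Fin 3 := if s = 0 then 1 else if s = 1 then 0 else 2

/-- The sequences over the integers. -/
def seqZ (fam : Bool) (m : ℕ) : ℤ × Bool :=
  if fam then (((cA m).1 : ℤ), (cA m).2) else (((cB 0 m).1 : ℤ), (cB 0 m).2)

/-- Consecutive in the beginning of a sequence. -/
def inseq (fam : Bool) (x y : ℤ × Bool) : Bool :=
  (List.range (if fam then 31 else 23)).any fun m =>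
    (seqZ fam m == x && seqZ fam (m + 1) == y) || (seqZ fam m == y && seqZ fam (m + 1) == x)

/-- All edges of the strip path given by four steps are in the sequence. -/
def okb (fam : Bool) (x : ℤ × Bool) (a b c d : Fin 3) : Bool :=
  inseq fam x (stz a x) && inseq fam (stz a x) (stz b (stz a x)) &&
  inseq fam (stz b (stz a x)) (stz c (stz b (stz a x))) &&
  inseq fam (stz c (stz b (stz a x))) (stz d (stz c (stz b (stz a x))))

theorem cert : ∀ l : Bool, ∀ a b c d : Fin 3, b ≠ opp a → c ≠ opp b → d ≠ opp c →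
    ∃ i : Fin 16, ∃ fam : Bool, okb fam ((i.val : ℤ), l) a b c d = true ∨
      okb fam ((i.val : ℤ), l) (opp a) (opp b) (opp c) (opp d) = true := by
  decide +kernel

/-- The map from the integer strip. -/
def psz (n : ℕ) (e : ℤ) (k : ZMod n) (y : ℤ × Bool) : ZMod n × Bool :=
  (((e * y.1 : ℤ) : ZMod n) + k, y.2)

theorem psz_stz_one (n : ℕ) (k : ZMod n) (s : Fin 3) (y : ℤ × Bool) :
    psz n 1 k (stz s y) = stp s (psz n 1 k y) := by
  obtain ⟨i, l⟩ := y
  fin_cases s <;> cases l <;> simp [psz, stz, stp] <;> ring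

theorem psz_stz_neg (n : ℕ) (k : ZMod n) (s : Fin 3) (y : ℤ × Bool) :
    psz n (-1) k (stz (opp s) y) = stp s (psz n (-1) k y) := by
  obtain ⟨i, l⟩ := y
  fin_cases s <;> cases l <;> simp [psz, stz, stp, opp] <;> ring

/-- The edges of the trail starting at `x` with given steps. -/
def trail {n : ℕ} : List (Fin 3) → ZMod n × Bool → List (Sym2 (ZMod n × Bool))
  | [], _ => []
  | s :: l, x => s(x, stp s x) :: trail l (stp s x)

/-- A walk lies on a Hamilton cycle. -/
theorem main4 (t : ℕ) (x : ZMod (16 + 6 * t) × Bool) (a b c d : Fin 3)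
    (hab : b ≠ opp a) (hbc : c ≠ opp b) (hcd : d ≠ opp c) :
    ∃ (u : ZMod (16 + 6 * t) × Bool) (q : (gp (16 + 6 * t)).Walk u u), q.IsCycle ∧
      (∀ v, v ∈ q.support) ∧ ∀ f ∈ trail [a, b, c, d] x, f ∈ q.edges := by
  obtain ⟨i, l⟩ := x
  obtain ⟨i0, fam, hok⟩ := cert l a b c d hab hbc hcd
  -- the Hamilton cycles in terms of `inseq`
  have key : ∀ (e : ℤ) (he : e = 1 ∨ e = -1) (k : ZMod (16 + 6 * t)),
      ∃ (u : ZMod (16 + 6 * t) × Bool) (q : (gp (16 + 6 * t)).Walk u u), q.IsCycle ∧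
      (∀ v, v ∈ q.support) ∧ ∀ y z, inseq fam y z = true → s(psz _ e k y, psz _ e k z) ∈ q.edges := by
    intro e he k
    cases fam with
    | true =>
      obtain ⟨u, q, h1, h2, h3⟩ := ham_A t he k
      refine ⟨u, q, h1, h2, ?_⟩
      intro y z hyz
      simp only [inseq, if_true, List.any_eq_true, List.mem_range, Bool.or_eq_true,
        Bool.and_eq_true, beq_iff_eq, seqZ] at hyz
      obtain ⟨m, hm, h | h⟩ := hyz
      · have := h3 m (by omega)
        rw [← h.1, ← h.2]
        exact this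
      · have := h3 m (by omega)
        rw [← h.1, ← h.2, Sym2.eq_swap]
        exact this
    | false =>
      obtain ⟨u, q, h1, h2, h3⟩ := ham_B t he k
      refine ⟨u, q, h1, h2, ?_⟩
      intro y z hyz
      simp only [inseq, Bool.false_eq_true, if_false, List.any_eq_true, List.mem_range,
        Bool.or_eq_true, Bool.and_eq_true, beq_iff_eq, seqZ] at hyz
      obtain ⟨m, hm, h | h⟩ := hyz
      · have := h3 m (by omega)
        rw [cB_eq t m (by omega), cB_eq t (m + 1) (by omega)] at this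
        rw [← h.1, ← h.2]
        exact this
      · have := h3 m (by omega)
        rw [cB_eq t m (by omega), cB_eq t (m + 1) (by omega)] at this
        rw [← h.1, ← h.2, Sym2.eq_swap]
        exact this
  rcases hok with hok | hok
  · obtain ⟨u, q, h1, h2, h3⟩ := key 1 (Or.inl rfl) (i - ((i0.val : ℤ) : ZMod (16 + 6 * t)))
    refine ⟨u, q, h1, h2, ?_⟩
    simp only [okb, Bool.and_eq_true] at hok
    obtain ⟨⟨⟨k1, k2⟩, k3⟩, k4⟩ := hok
    have hx : psz (16 + 6 * t) 1 (i - ((i0.val : ℤ) : ZMod (16 + 6 * t))) ((i0.val : ℤ), l)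
        = (i, l) := by
      simp [psz]
    have g1 := h3 _ _ k1
    have g2 := h3 _ _ k2
    have g3 := h3 _ _ k3
    have g4 := h3 _ _ k4
    simp only [psz_stz_one, hx] at g1 g2 g3 g4
    intro f hf
    simp only [trail, List.mem_cons, List.not_mem_nil, or_false] at hf
    rcases hf with rfl | rfl | rfl | rfl
    · exact g1
    · exact g2
    · exact g3
    · exact g4
  · obtain ⟨u, q, h1, h2, h3⟩ := key (-1) (Or.inr rfl) (i + ((i0.val : ℤ) : ZMod (16 + 6 * t)))
    refine ⟨u, q, h1, h2, ?_⟩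
    simp only [okb, Bool.and_eq_true] at hok
    obtain ⟨⟨⟨k1, k2⟩, k3⟩, k4⟩ := hok
    have hx : psz (16 + 6 * t) (-1) (i + ((i0.val : ℤ) : ZMod (16 + 6 * t))) ((i0.val : ℤ), l)
        = (i, l) := by
      simp [psz]
    have g1 := h3 _ _ k1
    have g2 := h3 _ _ k2
    have g3 := h3 _ _ k3
    have g4 := h3 _ _ k4
    simp only [psz_stz_neg, hx] at g1 g2 g3 g4
    intro f hf
    simp only [trail, List.mem_cons, List.not_mem_nil, or_false] at hf
    rcases hf with rfl | rfl | rfl | rfl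
    · exact g1
    · exact g2
    · exact g3
    · exact g4

theorem stp_opp {n : ℕ} (s : Fin 3) (x : ZMod n × Bool) : stp (opp s) (stp s x) = x := by
  obtain ⟨i, l⟩ := x
  fin_cases s <;> cases l <;> simp [stp, opp]

/-- Non-backtracking step lists. -/
def NB (l : List (Fin 3)) : Prop := l.IsChain fun a b => b ≠ opp a

instance (l : List (Fin 3)) : Decidable (NB l) := by unfold NB; infer_instance

theorem steps_of_path {n : ℕ} (hn : 5 ≤ n) {u v : ZMod n × Bool} (P : (gp n).Walk u v) :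
    P.IsPath → ∃ l : List (Fin 3), l.length = P.length ∧ NB l ∧ P.edges = trail l u := by
  induction P with
  | nil => intro _; exact ⟨[], rfl, List.isChain_nil, rfl⟩
  | @cons u w v h P ih =>
    intro hP
    rw [Walk.cons_isPath_iff] at hP
    obtain ⟨l, h1, h2, h3⟩ := ih hP.1
    obtain ⟨s, rfl⟩ := (gp_adj hn _ _).1 h
    refine ⟨s :: l, by simp [h1], ?_, by simp [trail, h3]⟩
    cases l with
    | nil => exact List.isChain_singleton _
    | cons s' l' =>
      refine List.isChain_cons_cons.2 ⟨?_, h2⟩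
      rintro rfl
      apply hP.2
      have : s(stp s u, u) ∈ P.edges := by
        rw [h3, trail, stp_opp]
        exact List.mem_cons_self
      exact P.snd_mem_support_of_mem_edges this

/-- The default continuation of a step. -/
def nx (s : Fin 3) : Fin 3 := if s = 2 then 0 else s

theorem nx_ne : ∀ s, nx s ≠ opp s := by decide

theorem nx_ne' : ∀ s, nx s ≠ opp (nx s) := by decide

theorem extend {n : ℕ} (l : List (Fin 3)) (hl : l.length ≤ 4) (hNB : NB l) (x : ZMod n × Bool) :
    ∃ a b c d, b ≠ opp a ∧ c ≠ opp b ∧ d ≠ opp c ∧ ∀ f ∈ trail l x, f ∈ trail [a, b, c, d] x := by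
  match l, hl, hNB with
  | [], _, _ => exact ⟨0, 0, 0, 0, by decide, by decide, by decide, by simp [trail]⟩
  | [a], _, _ =>
    refine ⟨a, nx a, nx a, nx a, ?_, ?_, ?_, ?_⟩
    · exact nx_ne a
    · exact nx_ne' a
    · exact nx_ne' a
    · intro f hf
      simp only [trail, List.mem_cons, List.not_mem_nil, or_false] at hf ⊢
      tauto
  | [a, b], _, h =>
    refine ⟨a, b, nx b, nx b, ?_, ?_, ?_, ?_⟩
    · exact (List.isChain_cons_cons.1 h).1
    · exact nx_ne b
    · exact nx_ne' b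
    · intro f hf
      simp only [trail, List.mem_cons, List.not_mem_nil, or_false] at hf ⊢
      tauto
  | [a, b, c], _, h =>
    refine ⟨a, b, c, nx c, ?_, ?_, ?_, ?_⟩
    · exact (List.isChain_cons_cons.1 h).1
    · exact (List.isChain_cons_cons.1 (List.isChain_cons_cons.1 h).2).1
    · exact nx_ne c
    · intro f hf
      simp only [trail, List.mem_cons, List.not_mem_nil, or_false] at hf ⊢
      tauto
  | [a, b, c, d], _, h =>
    refine ⟨a, b, c, d, ?_, ?_, ?_, ?_⟩
    · exact (List.isChain_cons_cons.1 h).1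
    · exact (List.isChain_cons_cons.1 (List.isChain_cons_cons.1 h).2).1
    · exact (List.isChain_cons_cons.1 (List.isChain_cons_cons.1 (List.isChain_cons_cons.1 h).2).2).1
    · intro f hf
      exact hf
  | _ :: _ :: _ :: _ :: _ :: _, h, _ => simp at h; omega

theorem short_path (t : ℕ) {u v : ZMod (16 + 6 * t) × Bool} (P : (gp (16 + 6 * t)).Walk u v)
    (hP : P.IsPath) (hl : P.length ≤ 4) :
    ∃ (w : ZMod (16 + 6 * t) × Bool) (q : (gp (16 + 6 * t)).Walk w w), q.IsCycle ∧
      (∀ v, v ∈ q.support) ∧ ∀ f ∈ P.edges, f ∈ q.edges := by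
  obtain ⟨l, h1, h2, h3⟩ := steps_of_path (by omega) P hP
  obtain ⟨a, b, c, d, hab, hbc, hcd, hf⟩ := extend l (by omega) h2 u
  obtain ⟨w, q, g1, g2, g3⟩ := main4 t u a b c d hab hbc hcd
  refine ⟨w, q, g1, g2, ?_⟩
  intro f hf'
  rw [h3] at hf'
  exact g3 f (hf f hf')

end Pool.Agent.Q252.HE
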